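import Mathlib

/-!
# BC: Lemma P

`V` finite, `N i` (`i < m`) different maximal normal subgroups with non-abelian quotients and trivial intersection, `Y` a
subgroup which contains no normal subgroup of `V` except the trivial one.  Then `2 ^ m ≤ [V : Y] ^ 2`.
-/

set_option autoImplicit false

namespace Pool.Agent.Helper36.BC

open Subgroup
open scoped commutatorElement

section

variable {V : Type*} [Group V] {ι : Type*} {N : ι → Subgroup V}

/-- two subgroups which cover `V` modulo `N i` cannot commute modulo `N i` -/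
theorem not_both (i : ι) (hn : (N i).Normal) (hna : ¬ commutator V ≤ N i) (H K : Subgroup V)
    (hH : N i ⊔ H = ⊤) (hK : N i ⊔ K = ⊤) (h : ∀ a ∈ H, ∀ b ∈ K, ⁅a, b⁆ ∈ N i) : False := by
  apply hna
  rw [_root_.commutator_def, commutator_le]
  intro x _ y _
  have hx : x ∈ N i ⊔ H := by rw [hH]; trivial
  have hy : y ∈ N i ⊔ K := by rw [hK]; trivial
  obtain ⟨n, hn', a, ha, rfl⟩ := mem_sup_of_normal_left.1 hx
  obtain ⟨n', hn'', b, hb, rfl⟩ := mem_sup_of_normal_left.1 hy
  have e1 : ((n * a : V) : V ⧸ N i) = (a : V ⧸ N i) := by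
    rw [QuotientGroup.mk_mul, (QuotientGroup.eq_one_iff n).2 hn', one_mul]
  have e2 : ((n' * b : V) : V ⧸ N i) = (b : V ⧸ N i) := by
    rw [QuotientGroup.mk_mul, (QuotientGroup.eq_one_iff n').2 hn'', one_mul]
  rw [← QuotientGroup.eq_one_iff]
  have h3 := (QuotientGroup.eq_one_iff ⁅a, b⁆).2 (h a ha b hb)
  rw [commutatorElement_def] at h3 ⊢
  simp only [QuotientGroup.mk_mul, QuotientGroup.mk_inv] at h3 e1 e2 ⊢
  rw [e1, e2]
  exact h3

/-- different maximal normal subgroups generate `V` -/
theorem sup_eq_top (hn : ∀ i, (N i).Normal)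
    (hs : ∀ i, ∀ M : Subgroup V, M.Normal → N i ≤ M → M = N i ∨ M = ⊤)
    (hna : ∀ i, ¬ commutator V ≤ N i) (hinj : Function.Injective N) {i j : ι} (hij : i ≠ j) :
    N i ⊔ N j = ⊤ := by
  have := hn i
  have := hn j
  rcases hs i (N i ⊔ N j) inferInstance le_sup_left with h | h
  · exfalso
    have h1 : N j ≤ N i := by rw [← h]; exact le_sup_right
    rcases hs j (N i) inferInstance h1 with h2 | h2
    · exact hij (hinj h2)
    · exact hna i (by rw [h2]; exact le_top)
  · exact h

/-- `N i` and the intersection of the others generate `V` -/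
theorem sup_iInf [DecidableEq ι] (hn : ∀ i, (N i).Normal)
    (hs : ∀ i, ∀ M : Subgroup V, M.Normal → N i ≤ M → M = N i ∨ M = ⊤)
    (hna : ∀ i, ¬ commutator V ≤ N i) (hinj : Function.Injective N) (i : ι) (B : Finset ι)
    (hi : i ∉ B) : N i ⊔ B.inf N = ⊤ := by
  induction B using Finset.induction_on with
  | empty => simp
  | insert j B hj ih =>
    rw [Finset.mem_insert, not_or] at hi
    have ih' := ih hi.2
    have hij := sup_eq_top hn hs hna hinj hi.1
    rw [Finset.inf_insert]
    have := hn i
    have := hn j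
    have hB : (B.inf N).Normal := by
      rw [Finset.inf_eq_iInf]
      exact normal_iInf_normal fun k => normal_iInf_normal fun _ => hn k
    rcases hs i (N i ⊔ N j ⊓ B.inf N) inferInstance le_sup_left with h | h
    · exfalso
      refine not_both i (hn i) (hna i) (N j) (B.inf N) hij ih' ?_
      intro a ha b hb
      have h1 : ⁅a, b⁆ ∈ N j ⊓ B.inf N :=
        commutator_le_inf (N j) (B.inf N) (commutator_mem_commutator ha hb)
      have h2 : N j ⊓ B.inf N ≤ N i := by
        calc N j ⊓ B.inf N ≤ N i ⊔ N j ⊓ B.inf N := le_sup_right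
          _ = N i := h
      exact h2 h1
    · exact h

end

/-- **Lemma P** -/
theorem lemmaP {V : Type*} [Group V] [Finite V] {m : ℕ} (N : Fin m → Subgroup V)
    (hn : ∀ i, (N i).Normal)
    (hs : ∀ i, ∀ M : Subgroup V, M.Normal → N i ≤ M → M = N i ∨ M = ⊤)
    (hna : ∀ i, ¬ commutator V ≤ N i) (hinj : Function.Injective N) (hbot : iInf N = ⊥)
    (Y : Subgroup V) (hY : ∀ M : Subgroup V, M.Normal → M ≤ Y → M = ⊥) :
    2 ^ m ≤ Y.index ^ 2 := by
  classical
  have two : ∀ H K : Subgroup V, ¬ K ≤ H → 2 ≤ H.relIndex K := by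
    intro H K h
    have h0 : H.relIndex K ≠ 0 := by
      rw [relIndex]
      exact index_ne_zero_of_finite
    have h1 : H.relIndex K ≠ 1 := fun h' => h (relIndex_eq_one.1 h')
    omega
  have norm_inf : ∀ B : Finset (Fin m), (B.inf N).Normal := by
    intro B
    rw [Finset.inf_eq_iInf]
    exact normal_iInf_normal fun k => normal_iInf_normal fun _ => hn k
  have htop : ∀ i, N i ≠ ⊤ := fun i h => hna i (by rw [h]; exact le_top)
  -- the part where the projection of `Y` is not everything
  let A : Finset (Fin m) := Finset.univ.filter fun i => Y ⊔ N i ≠ ⊤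
  have hA : ∀ i, i ∈ A ↔ Y ⊔ N i ≠ ⊤ := by
    intro i
    simp [A]
  have partA : ∀ B : Finset (Fin m), B ⊆ A → 2 ^ B.card ≤ (Y ⊔ B.inf N).index := by
    intro B
    induction B using Finset.induction_on with
    | empty => intro _; simp
    | insert i B hi ih =>
      intro hB
      have hiA : Y ⊔ N i ≠ ⊤ := (hA i).1 (hB (Finset.mem_insert_self i B))
      have ih' := ih fun x hx => hB (Finset.mem_insert_of_mem hx)
      rw [Finset.card_insert_of_notMem hi, Finset.inf_insert]
      have hle : Y ⊔ N i ⊓ B.inf N ≤ Y ⊔ B.inf N := sup_le_sup_left inf_le_right _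
      rw [← relIndex_mul_index hle, pow_succ, mul_comm]
      refine Nat.mul_le_mul (two _ _ ?_) ih'
      intro hcon
      apply hiA
      have h1 : B.inf N ≤ Y ⊔ N i := by
        calc B.inf N ≤ Y ⊔ B.inf N := le_sup_right
          _ ≤ Y ⊔ N i ⊓ B.inf N := hcon
          _ ≤ Y ⊔ N i := sup_le_sup_left inf_le_left _
      have h2 := sup_iInf hn hs hna hinj i B hi
      rw [eq_top_iff, ← h2]
      exact sup_le le_sup_right h1
  -- the other part
  let T : Finset (Fin m) → Subgroup V := fun I => Iᶜ.inf N
  have T_mono : ∀ I J : Finset (Fin m), I ⊆ J → T I ≤ T J := by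
    intro I J hIJ
    exact Finset.inf_mono (Finset.compl_subset_compl.2 hIJ)
  have T_insert : ∀ (I : Finset (Fin m)) (i : Fin m), i ∉ I → T I = N i ⊓ T (insert i I) := by
    intro I i hi
    simp only [T]
    rw [← Finset.inf_insert]
    congr 1
    ext x
    simp only [Finset.mem_compl, Finset.mem_insert, not_or]
    by_cases hx : x = i
    · subst hx; simp [hi]
    · simp [hx]
  have T_inf : ∀ (I : Finset (Fin m)) (i j : Fin m), i ∉ I → j ∉ I → i ≠ j →
      T (insert i I) ⊓ T (insert j I) = T I := by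
    intro I i j hi hj hij
    simp only [T]
    rw [← Finset.inf_union]
    congr 1
    ext x
    simp only [Finset.mem_compl, Finset.mem_insert, not_or, Finset.mem_union]
    constructor
    · rintro (h | h)
      · exact h.2
      · exact h.2
    · intro h
      by_cases hx : x = i
      · right; subst hx; exact ⟨hij, h⟩
      · left; exact ⟨hx, h⟩
  have T_not : ∀ (I : Finset (Fin m)) (i : Fin m), i ∈ I → N i ⊔ T I = ⊤ := by
    intro I i hi
    exact sup_iInf hn hs hna hinj i _ (by simpa using hi)
  have T_card : ∀ I : Finset (Fin m), 2 ^ I.card ≤ Nat.card (T I) := by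
    intro I
    induction I using Finset.induction_on with
    | empty =>
      have : 0 < Nat.card (T ∅) := Nat.card_pos
      rw [Finset.card_empty, pow_zero]
      exact this
    | insert i I hi ih =>
      rw [Finset.card_insert_of_notMem hi, pow_succ]
      have hle : T I ≤ T (insert i I) := T_mono _ _ (Finset.subset_insert i I)
      have h1 : ¬ T (insert i I) ≤ T I := by
        intro hcon
        have h2 : T (insert i I) ≤ N i := by
          rw [T_insert I i hi] at hcon
          exact hcon.trans inf_le_left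
        have h3 := T_not (insert i I) i (Finset.mem_insert_self i I)
        rw [sup_eq_left.2 h2] at h3
        exact htop i h3
      have h2 := two _ _ h1
      have h4 : Nat.card (T I) * (T I).relIndex (T (insert i I)) = Nat.card (T (insert i I)) := by
        have h5 := relIndex_mul_relIndex ⊥ (T I) (T (insert i I)) bot_le hle
        rw [relIndex_bot_left, relIndex_bot_left] at h5
        exact h5
      rw [← h4]
      exact Nat.mul_le_mul ih h2
  -- choose `I` maximal
  obtain ⟨I, hI, hmax⟩ : ∃ I : Finset (Fin m), (I ⊆ Aᶜ ∧ Y ⊓ T I = ⊥) ∧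
      ∀ J : Finset (Fin m), (J ⊆ Aᶜ ∧ Y ⊓ T J = ⊥) → J.card ≤ I.card := by
    have hne : ((Finset.univ : Finset (Finset (Fin m))).filter
        fun I => I ⊆ Aᶜ ∧ Y ⊓ T I = ⊥).Nonempty := by
      refine ⟨∅, ?_⟩
      simp only [Finset.mem_filter, Finset.mem_univ, true_and, Finset.empty_subset]
      have : T ∅ = ⊥ := by
        simp only [T, Finset.compl_empty]
        rw [← hbot, Finset.inf_univ_eq_iInf]
      rw [this, inf_bot_eq]
    obtain ⟨I, hI, hmax⟩ := Finset.exists_max_image _ Finset.card hne
    refine ⟨I, by simpa using hI, fun J hJ => hmax J (by simpa using hJ)⟩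
  -- for `j ∉ I` the intersection becomes non-trivial
  have hR : ∀ j, j ∉ A → j ∉ I → Y ⊓ T (insert j I) ≠ ⊥ := by
    intro j hj hjI hcon
    have := hmax (insert j I) ⟨by
      intro x hx
      rcases Finset.mem_insert.1 hx with rfl | hx
      · simpa using hj
      · exact hI.1 hx, hcon⟩
    rw [Finset.card_insert_of_notMem hjI] at this
    omega
  have hsupp : ∀ j, j ∉ A → j ∉ I → ∃ i ∈ I, ¬ Y ⊓ T (insert j I) ≤ N i := by
    intro j hj hjI
    by_contra hcon
    push Not at hcon
    apply hR j hj hjI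
    -- the intersection with all `N i`, `i ∈ I`, is in `T {j}`
    have h1 : Y ⊓ T (insert j I) ≤ Y ⊓ T {j} := by
      refine le_inf inf_le_left ?_
      simp only [T]
      refine Finset.le_inf ?_
      intro x hx
      rw [Finset.mem_compl, Finset.mem_singleton] at hx
      by_cases hxI : x ∈ I
      · exact hcon x hxI
      · refine inf_le_right.trans (Finset.inf_le ?_)
        rw [Finset.mem_compl, Finset.mem_insert, not_or]
        exact ⟨hx, hxI⟩
    have hnT : (T {j}).Normal := norm_inf _
    -- `Y ⊓ T {j}` is normal in `V`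
    have hjtop : Y ⊔ N j = ⊤ := by
      by_contra h
      exact hj ((hA j).2 h)
    have hbotj : N j ⊓ T {j} = ⊥ := by
      have := T_insert ∅ j (by simp)
      rw [insert_empty_eq] at this
      rw [← this]
      simp only [T, Finset.compl_empty]
      rw [← hbot, Finset.inf_univ_eq_iInf]
    have hnorm : (Y ⊓ T {j}).Normal := by
      constructor
      intro x hx g
      have hg : g ∈ Y ⊔ N j := by rw [hjtop]; trivial
      have := hn j
      obtain ⟨y, hy, n, hn', rfl⟩ := mem_sup_of_normal_right.1 hg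
      have hc : n * x * n⁻¹ = x := by
        have h2 : ⁅n, x⁆ ∈ N j ⊓ T {j} :=
          commutator_le_inf (N j) (T {j}) (commutator_mem_commutator hn' hx.2)
        rw [hbotj, mem_bot, commutatorElement_def] at h2
        have h3 := mul_inv_eq_one.1 h2
        exact h3
      have e : y * n * x * (y * n)⁻¹ = y * (n * x * n⁻¹) * y⁻¹ := by group
      rw [e, hc]
      exact ⟨Y.mul_mem (Y.mul_mem hy hx.1) (Y.inv_mem hy), hnT.conj_mem x hx.2 y⟩
    have h3 := hY _ hnorm inf_le_left
    rw [h3] at h1
    exact le_bot_iff.1 h1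
  -- the supports are disjoint
  have hdisj : ∀ j j' i, j ∉ A → j ∉ I → j' ∉ A → j' ∉ I → j ≠ j' → i ∈ I →
      ¬ Y ⊓ T (insert j I) ≤ N i → ¬ Y ⊓ T (insert j' I) ≤ N i → False := by
    intro j j' i hj hjI hj' hjI' hjj hi h1 h2
    have hiA : i ∉ A := by simpa using hI.1 hi
    have hitop : Y ⊔ N i = ⊤ := by
      by_contra h
      exact hiA ((hA i).2 h)
    have := hn i
    have key : ∀ k : Fin m, ¬ Y ⊓ T (insert k I) ≤ N i → N i ⊔ Y ⊓ T (insert k I) = ⊤ := by
      intro k hk
      have hnT : (T (insert k I)).Normal := norm_inf _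
      have hnorm : (N i ⊔ Y ⊓ T (insert k I)).Normal := by
        constructor
        intro x hx g
        have hg : g ∈ N i ⊔ Y := by rw [sup_comm, hitop]; trivial
        obtain ⟨n, hn', y, hy, rfl⟩ := mem_sup_of_normal_left.1 hg
        obtain ⟨n', hn'', r, hr, rfl⟩ := mem_sup_of_normal_left.1 hx
        have e : n * y * (n' * r) * (n * y)⁻¹ =
            n * ((y * n' * y⁻¹) * (y * r * y⁻¹)) * n⁻¹ := by group
        rw [e]
        have m1 : n ∈ N i ⊔ Y ⊓ T (insert k I) := mem_sup_left hn'
        have m2 : y * n' * y⁻¹ ∈ N i ⊔ Y ⊓ T (insert k I) :=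
          mem_sup_left ((hn i).conj_mem n' hn'' y)
        have m3 : y * r * y⁻¹ ∈ N i ⊔ Y ⊓ T (insert k I) :=
          mem_sup_right ⟨Y.mul_mem (Y.mul_mem hy hr.1) (Y.inv_mem hy), hnT.conj_mem r hr.2 y⟩
        exact mul_mem (mul_mem m1 (mul_mem m2 m3)) (inv_mem m1)
      rcases hs i _ hnorm le_sup_left with h | h
      · exfalso
        apply hk
        calc Y ⊓ T (insert k I) ≤ N i ⊔ Y ⊓ T (insert k I) := le_sup_right
          _ = N i := h
      · exact h
    refine not_both i (hn i) (hna i) _ _ (key j h1) (key j' h2) ?_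
    intro a ha b hb
    have c1 : ⁅a, b⁆ ∈ T (insert j I) := by
      have hnT : (T (insert j I)).Normal := norm_inf _
      rw [commutatorElement_def]
      have e : a * b * a⁻¹ * b⁻¹ = a * (b * a⁻¹ * b⁻¹) := by group
      rw [e]
      exact mul_mem ha.2 (hnT.conj_mem _ (inv_mem ha.2) b)
    have c2 : ⁅a, b⁆ ∈ T (insert j' I) := by
      have hnT : (T (insert j' I)).Normal := norm_inf _
      rw [commutatorElement_def]
      exact mul_mem (hnT.conj_mem _ hb.2 a) (inv_mem hb.2)
    have c3 : ⁅a, b⁆ ∈ Y := by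
      rw [commutatorElement_def]
      exact mul_mem (mul_mem (mul_mem ha.1 hb.1) (inv_mem ha.1)) (inv_mem hb.1)
    have c4 : ⁅a, b⁆ ∈ Y ⊓ T I := by
      rw [← T_inf I j j' hjI hjI' hjj]
      exact ⟨c3, c1, c2⟩
    rw [hI.2, mem_bot] at c4
    rw [c4]
    exact one_mem _
  -- counting
  have hcount : Aᶜ.card ≤ 2 * I.card := by
    have h1 : ∀ j : Fin m, ∃ i, j ∈ Aᶜ \ I → i ∈ I ∧ ¬ Y ⊓ T (insert j I) ≤ N i := by
      intro j
      by_cases hj : j ∈ Aᶜ \ I
      · rw [Finset.mem_sdiff, Finset.mem_compl] at hj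
        obtain ⟨i, hi, h⟩ := hsupp j hj.1 hj.2
        exact ⟨i, fun _ => ⟨hi, h⟩⟩
      · exact ⟨j, fun h => absurd h hj⟩
    choose F hF using h1
    have h2 : (Aᶜ \ I).card ≤ I.card := by
      refine Finset.card_le_card_of_injOn F (fun j hj => (hF j hj).1) ?_
      intro j hj j' hj' heq
      by_contra hne
      have hj1 := Finset.mem_sdiff.1 (Finset.mem_coe.1 hj)
      have hj2 := Finset.mem_sdiff.1 (Finset.mem_coe.1 hj')
      rw [Finset.mem_compl] at hj1 hj2
      exact hdisj j j' (F j) hj1.1 hj1.2 hj2.1 hj2.2 hne (hF j hj).1 (hF j hj).2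
        (by rw [heq]; exact (hF j' hj').2)
    have h3 := Finset.card_sdiff_add_card_eq_card hI.1
    omega
  have hindex : 2 ^ A.card * 2 ^ I.card ≤ Y.index := by
    have h1 := partA A (Finset.Subset.refl A)
    have hle : Y ≤ Y ⊔ A.inf N := le_sup_left
    rw [← relIndex_mul_index hle, mul_comm]
    refine Nat.mul_le_mul ?_ h1
    have h2 : T I ≤ Y ⊔ A.inf N := by
      refine le_trans ?_ le_sup_right
      simp only [T]
      refine Finset.inf_mono ?_
      intro x hx
      rw [Finset.mem_compl]
      intro hxI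
      have := hI.1 hxI
      rw [Finset.mem_compl] at this
      exact this hx
    have h3 : Y.relIndex (T I) = Nat.card (T I) := by
      rw [relIndex]
      have : Y.subgroupOf (T I) = ⊥ := by
        rw [subgroupOf_eq_bot]
        exact disjoint_iff.2 hI.2
      rw [this, index_bot]
    calc 2 ^ I.card ≤ Nat.card (T I) := T_card I
      _ = Y.relIndex (T I) := h3.symm
      _ ≤ Y.relIndex (Y ⊔ A.inf N) := relIndex_le_of_le_right h2 (by
        rw [relIndex]
        exact index_ne_zero_of_finite)
  have hm : A.card + Aᶜ.card = m := by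
    have := Finset.card_add_card_compl A
    rw [Fintype.card_fin] at this
    exact this
  calc 2 ^ m ≤ 2 ^ ((A.card + I.card) * 2) := Nat.pow_le_pow_right (by norm_num) (by omega)
    _ = (2 ^ A.card * 2 ^ I.card) ^ 2 := by rw [← pow_add, ← pow_mul]
    _ ≤ Y.index ^ 2 := Nat.pow_le_pow_left hindex 2

end Pool.Agent.Helper36.BC
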